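import Pool.Agent.Helper36.CV.StmtsE

set_option autoImplicit false

namespace Pool.Agent.Helper31.CV.E13

open Pool.Agent.Helper36.CV Set

lemma alg (e h : ℝ) (h0 : 0 < e) (he : e ≤ 1 / 10 ^ 4) (hh : h = e * (1 + 70 * e)) :
    h * (1 + 27 * h) + e ^ 2 / 2 ≤ e * (1 + 98 * e) ∧ e * (1 + 42 * e) + e ^ 2 / 2 ≤ h * (1 - 27 * h) := by
  have h1 : 0 ≤ 1 / 2 - 3780 * e - 132300 * e ^ 2 := by nlinarith
  have h2 := mul_nonneg (sq_nonneg e) h1
  subst hh
  constructor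
  · have e1 : e * (1 + 98 * e) - (e * (1 + 70 * e) * (1 + 27 * (e * (1 + 70 * e))) + e ^ 2 / 2) =
      e ^ 2 * (1 / 2 - 3780 * e - 132300 * e ^ 2) := by ring
    linarith
  · have e1 : e * (1 + 70 * e) * (1 - 27 * (e * (1 + 70 * e))) - (e * (1 + 42 * e) + e ^ 2 / 2) =
      e ^ 2 * (1 / 2 - 3780 * e - 132300 * e ^ 2) := by ring
    linarith

lemma alg2 (e x η : ℝ) (h0 : 0 < e) (he : e ≤ 1 / 10 ^ 4) (hη0 : 0 < η) (hη : η ≤ e ^ 2 / 10) (h1 : e - η < x)
    (h2 : x < e + η) : 0 < x ∧ e * (1 + 98 * e) - e ^ 2 / 2 ≤ x * (1 + 98 * x) ∧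
      x * (1 + 42 * x) ≤ e * (1 + 42 * e) + e ^ 2 / 2 := by
  have h3 : e ^ 2 ≤ e / 10 ^ 4 := by nlinarith
  have h4 : 0 < e - η := by linarith
  have h5 : 0 < x := by linarith
  have h6 : x ≤ 2 / 10 ^ 4 := by linarith
  refine ⟨h5, ?_, ?_⟩
  · have e1 : x * (1 + 98 * x) - e * (1 + 98 * e) = (x - e) * (1 + 98 * (x + e)) := by ring
    have e2 : 1 + 98 * (x + e) ≤ 2 := by linarith
    have e3 : 0 ≤ 1 + 98 * (x + e) := by linarith
    have e4 : -(η * 2) ≤ (x - e) * (1 + 98 * (x + e)) := by nlinarith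
    linarith
  · have e1 : x * (1 + 42 * x) - e * (1 + 42 * e) = (x - e) * (1 + 42 * (x + e)) := by ring
    have e2 : 1 + 42 * (x + e) ≤ 2 := by linarith
    have e3 : 0 ≤ 1 + 42 * (x + e) := by linarith
    have e4 : (x - e) * (1 + 42 * (x + e)) ≤ η * 2 := by nlinarith
    linarith

theorem st_E13 (hN : ST_N2) : ST_E13 := by
  intro L hL
  have hL0 : 0 < L := by linarith
  obtain ⟨a, b, ha, hab, hbδ, hA⟩ := hN (min (1 / (4 * L)) (1 / 10 ^ 4)) (by positivity)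
  have hb1 : b < 1 / (4 * L) := lt_of_lt_of_le hbδ (min_le_left _ _)
  have hb2 : b < 1 / 10 ^ 4 := lt_of_lt_of_le hbδ (min_le_right _ _)
  set e := (a + b) / 2 with he
  have he0 : 0 < e := by rw [he]; linarith
  have heb : e < b := by rw [he]; linarith
  have he4 : e ≤ 1 / 10 ^ 4 := by linarith
  obtain ⟨h, hh⟩ : ∃ h, h = e * (1 + 70 * e) := ⟨_, rfl⟩
  have hh0 : 0 < h := by rw [hh]; positivity
  have hh1 : h ≤ 11 / 10 * e := by rw [hh]; nlinarith
  obtain ⟨g1, g2⟩ := alg e h he0 he4 hh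
  have hs5 : 0 < Real.sqrt 5 := Real.sqrt_pos.mpr (by norm_num)
  have hs5b : (2236 / 1000 : ℝ) < Real.sqrt 5 := Real.lt_sqrt_of_sq_lt (by norm_num)
  have hpi : 0 < Real.pi := Real.pi_pos
  have hpi2 : Real.pi ^ 2 < 10 := by
    have := Real.pi_lt_d2
    nlinarith
  obtain ⟨l1, hl1⟩ : ∃ l1, l1 = Real.pi ^ 2 * h / (2 * Real.sqrt 5) := ⟨_, rfl⟩
  have hl0 : 0 < l1 := by rw [hl1]; positivity
  have hl27 : 12 * l1 ≤ 27 * h := by
    rw [hl1, mul_div_assoc']
    rw [div_le_iff₀ (by positivity)]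
    nlinarith
  have habs : |l1| = l1 := abs_of_pos hl0
  obtain ⟨η, hη⟩ : ∃ η, η = min (e ^ 2 / 10) ((b - a) / 4) := ⟨_, rfl⟩
  have hη0 : 0 < η := by
    rw [hη]
    apply lt_min
    · positivity
    · linarith
  have hη1 : η ≤ e ^ 2 / 10 := by rw [hη]; exact min_le_left _ _
  have hη2 : η ≤ (b - a) / 4 := by rw [hη]; exact min_le_right _ _
  have hem : 0 < e - η := by nlinarith
  have hep : 0 < e + η := by linarith
  have hkey : ∀ l ∈ Ioo (1 / (2 * (e + η))) (1 / (2 * (e - η))), e - η < 1 / (2 * l) ∧ 1 / (2 * l) < e + η := by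
    intro l hl
    have hl0' : 0 < l := lt_trans (by positivity) hl.1
    have k1 := hl.1
    have k2 := hl.2
    rw [div_lt_iff₀ (by positivity)] at k1
    rw [lt_div_iff₀ (by positivity)] at k2
    constructor
    · rw [lt_div_iff₀ (by positivity)]
      linarith
    · rw [div_lt_iff₀ (by positivity)]
      linarith
  refine ⟨l1, 1 / (2 * (e + η)), 1 / (2 * (e - η)), ?_, by positivity, ?_, by rw [habs]; exact hl0, ?_, ?_, ?_⟩
  · rw [le_div_iff₀ (by positivity)]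
    have k1 : b * (4 * L) < 1 := by
      rwa [lt_div_iff₀ (by positivity)] at hb1
    have k2 : e + η ≤ b := by linarith
    nlinarith
  · apply one_div_lt_one_div_of_lt (by positivity)
    linarith
  · intro l hl
    obtain ⟨k1, k2⟩ := hkey l hl
    exact hA _ ⟨by linarith, by linarith⟩
  · rw [habs, le_div_iff₀ hL0]
    have k1 : b * (4 * L) < 1 := by
      rwa [lt_div_iff₀ (by positivity)] at hb1
    have k2 : l1 ≤ 4 * b := by linarith
    nlinarith
  · intro Hm Hp hHm hHp l hl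
    obtain ⟨k1, k2⟩ := hkey l hl
    obtain ⟨q1, q2, q3⟩ := alg2 e (1 / (2 * l)) η he0 he4 hη0 hη1 k1 k2
    rw [habs] at hHm hHp
    have m0 : 4 * Real.sqrt 5 * (l1 / (2 * Real.pi ^ 2)) = h := by
      rw [hl1]
      field_simp
      norm_num
    have m1 : 4 * Real.sqrt 5 * Hp = h * (1 + 12 * l1) := by
      rw [hHp, ← mul_assoc, m0]
    have m2 : 4 * Real.sqrt 5 * Hm = h * (1 - 12 * l1) := by
      rw [hHm, ← mul_assoc, m0]
    refine ⟨q1, ?_, ?_⟩
    · rw [m1]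
      have : h * (1 + 12 * l1) ≤ h * (1 + 27 * h) := mul_le_mul_of_nonneg_left (by linarith) hh0.le
      linarith
    · rw [m2]
      have : h * (1 - 27 * h) ≤ h * (1 - 12 * l1) := mul_le_mul_of_nonneg_left (by linarith) hh0.le
      linarith

end Pool.Agent.Helper31.CV.E13
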