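import Pool.Agent.Helper36.CV.StmtsP

set_option autoImplicit false

namespace Pool.Agent.Helper31.CV.MR

open Pool.Agent.Helper36.CV Complex Set MeasureTheory Pointwise

noncomputable section

/-- reflected argument -/
def rf (z : ℂ) : ℂ := -(starRingEnd ℂ z)

lemma rf_im (z : ℂ) : (rf z).im = z.im := by simp [rf]

lemma rf_re (z : ℂ) : (rf z).re = -z.re := by simp [rf]

lemma rf_norm (z : ℂ) : ‖rf z‖ = ‖z‖ := by simp [rf]

lemma rf_real (x : ℝ) : rf (x : ℂ) = ((-x : ℝ) : ℂ) := by simp [rf]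

/-- reflected function -/
def ff (f : ℂ → ℂ) (z : ℂ) : ℂ := 1 - starRingEnd ℂ (f (rf z))

lemma ff_im (f : ℂ → ℂ) (z : ℂ) : (ff f z).im = (f (rf z)).im := by simp [ff]

lemma ff_re (f : ℂ → ℂ) (z : ℂ) : (ff f z).re = 1 - (f (rf z)).re := by simp [ff]

/-- reflected comb function -/
def cdr {Hm Hp : ℝ} {C : Set ℝ} (cd : CD Hm Hp C) : CD Hm Hp (-C) where
  f := ff cd.f
  cont := by
    unfold ff
    refine continuousOn_const.sub (Complex.continuous_conj.comp_continuousOn ?_)
    refine cd.cont.comp ?_ ?_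
    · unfold rf
      exact (Complex.continuous_conj.neg).continuousOn
    · intro z hz
      show 0 ≤ (rf z).im
      rw [rf_im]
      exact hz
  ana := by
    intro z hz
    have hz' : 0 < (rf z).im := by rw [rf_im]; exact hz
    have hd : DifferentiableAt ℂ cd.f (rf z) :=
      (cd.ana (rf z) hz').differentiableAt ((isOpen_lt continuous_const Complex.continuous_im).mem_nhds hz')
    have h1 : DifferentiableAt ℂ (fun w => cd.f (-w)) (starRingEnd ℂ z) := by
      apply DifferentiableAt.comp (starRingEnd ℂ z) (g := cd.f) (f := fun w => -w)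
      · exact hd
      · exact differentiableAt_id.neg
    have h2 := h1.conj_conj
    rw [Complex.conj_conj] at h2
    have h3 : DifferentiableAt ℂ (fun w => 1 - starRingEnd ℂ (cd.f (-(starRingEnd ℂ w)))) z :=
      (differentiableAt_const _).sub h2
    exact h3.differentiableWithinAt
  im_pos := by
    intro z hz
    rw [ff_im]
    apply cd.im_pos
    rw [rf_im]
    exact hz
  im_nonneg := by
    intro x
    rw [ff_im, rf_real]
    exact cd.im_nonneg _
  re_mono := by
    intro x y h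
    rw [ff_re, ff_re, rf_real, rf_real]
    have := cd.re_mono (-y) (-x) (by linarith)
    linarith
  re_ends := by
    obtain ⟨R, h1, h2⟩ := cd.re_ends
    refine ⟨R, fun x hx => ?_, fun x hx => ?_⟩
    · rw [ff_re, rf_real, h2 (-x) (by linarith)]
      ring
    · rw [ff_re, rf_real, h1 (-x) (by linarith)]
      ring
  growth := by
    obtain ⟨A, hA⟩ := cd.growth
    refine ⟨A + 1, fun z hz => ?_⟩
    have h1 := hA (rf z) (by rw [rf_im]; exact hz)
    rw [rf_norm] at h1
    have h2 : ‖ff cd.f z‖ ≤ ‖(1 : ℂ)‖ + ‖starRingEnd ℂ (cd.f (rf z))‖ := norm_sub_le _ _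
    rw [norm_one, RCLike.norm_conj] at h2
    linarith
  zero := by
    intro x
    rw [ff_im, rf_real, cd.zero]
    rfl
  lab := by
    intro x hx
    rw [ff_im, rf_real] at hx
    obtain ⟨m, n, h1, h2⟩ := cd.lab (-x) hx
    refine ⟨-m, 1 - n, ?_, ?_⟩
    · rw [ff_re, rf_real, h1]
      push_cast
      ring
    · rw [ff_im, rf_real, Int.cast_neg, abs_neg]
      exact h2
  ex := by
    intro m n hm h0 h1
    obtain ⟨x, hx, hx2⟩ := cd.ex (-m) (1 - n) (by omega) (by push_cast; linarith) (by push_cast; linarith)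
    refine ⟨-x, ?_, ?_⟩
    · rw [ff_re, rf_real, neg_neg, hx]
      push_cast
      ring
    · rw [ff_im, rf_real, neg_neg]
      push_cast at hx2
      rw [abs_neg] at hx2
      exact hx2

variable {Hm Hp : ℝ} {C : Set ℝ} (cd : CD Hm Hp C)

lemma vf_cdr (x : ℝ) : vf (cdr cd) x = vf cd (-x) := by
  show (ff cd.f x).im = (cd.f ((-x : ℝ) : ℂ)).im
  rw [ff_im, rf_real]

lemma Nf_cdr (x : ℝ) : Nf (cdr cd) x = 1 - Nf cd (-x) := by
  show (ff cd.f x).re = 1 - (cd.f ((-x : ℝ) : ℂ)).re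
  rw [ff_re, rf_real]

lemma Yf_cdr (x r : ℝ) : Yf (cdr cd) x r = Yf cd (-x) r := by
  show (ff cd.f ((x : ℂ) + (r : ℂ) * I)).im = (cd.f (((-x : ℝ) : ℂ) + (r : ℂ) * I)).im
  rw [ff_im]
  have h : rf ((x : ℂ) + (r : ℂ) * I) = ((-x : ℝ) : ℂ) + (r : ℂ) * I := by
    apply Complex.ext <;> simp [rf]
  rw [h]

/-- reflected gap -/
def gr {cd : CD Hm Hp C} (V : Gap cd) : Gap (cdr cd) where
  a := -V.b
  b := -V.a
  n := 1 - V.n
  m := -V.m
  lt := by linarith [V.lt]
  ha := by
    rw [Set.mem_neg, neg_neg]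
    exact V.hb
  hb := by
    rw [Set.mem_neg, neg_neg]
    exact V.ha
  out := by
    intro t ht h
    rw [Set.mem_neg] at h
    exact V.out (-t) ⟨by linarith [ht.2], by linarith [ht.1]⟩ h
  lab := by
    intro t ht
    rw [Nf_cdr, V.lab (-t) ⟨by linarith [ht.2], by linarith [ht.1]⟩]
    push_cast
    ring

/-- inverse -/
def gi {cd : CD Hm Hp C} (V : Gap (cdr cd)) : Gap cd where
  a := -V.b
  b := -V.a
  n := 1 - V.n
  m := -V.m
  lt := by linarith [V.lt]
  ha := by
    have := V.hb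
    rwa [Set.mem_neg] at this
  hb := by
    have := V.ha
    rwa [Set.mem_neg] at this
  out := by
    intro t ht h
    exact V.out (-t) ⟨by linarith [ht.2], by linarith [ht.1]⟩ (by rw [Set.mem_neg, neg_neg]; exact h)
  lab := by
    intro t ht
    have := V.lab (-t) ⟨by linarith [ht.2], by linarith [ht.1]⟩
    rw [Nf_cdr, neg_neg] at this
    push_cast
    linarith

/-- the equivalence -/
def ge : Gap cd ≃ Gap (cdr cd) where
  toFun := gr
  invFun := gi
  left_inv := by
    intro V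
    cases V
    simp [gr, gi]
  right_inv := by
    intro V
    cases V
    simp [gr, gi]

lemma qr_abs (a b t : ℝ) : |qr a b t| = Real.sqrt ((t - a) * (t - b)) := by
  unfold qr
  split_ifs
  · exact abs_of_nonneg (Real.sqrt_nonneg _)
  · rw [abs_neg]
    exact abs_of_nonneg (Real.sqrt_nonneg _)

lemma qr_neg (a b t : ℝ) : |qr (-b) (-a) t| = |qr a b (-t)| := by
  rw [qr_abs, qr_abs]
  ring_nf

lemma KI_cdr (a b x : ℝ) : KI (cdr cd) (-b) (-a) (-x) = KI cd a b x := by
  unfold KI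
  rw [← integral_neg_eq_self]
  have h : ∀ t : ℝ, vf (cdr cd) (-t) / (|qr (-b) (-a) (-t)| * |-t - -x|) = vf cd t / (|qr a b t| * |t - x|) := by
    intro t
    rw [vf_cdr, neg_neg, qr_neg, neg_neg]
    have h2 : -t - -x = -(t - x) := by ring
    rw [h2, abs_neg]
  simp_rw [h]

theorem st_MR : ST_MR := by
  intro Hm Hp C cd _
  refine ⟨cdr cd, vf_cdr cd, Nf_cdr cd, fun x r _ => Yf_cdr cd x r, ge cd, fun V => ?_⟩
  refine ⟨rfl, rfl, rfl, ?_, ?_, ?_⟩
  · show ((1 - V.n : ℤ) : ℝ) + ((-V.m : ℤ) : ℝ) * gam = 1 - ((V.n : ℝ) + V.m * gam)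
    push_cast
    ring
  · show KI (cdr cd) (-V.b) (-V.a) ((-V.b + -V.a) / 2) = KI cd V.a V.b ((V.a + V.b) / 2)
    have h : (-V.b + -V.a) / 2 = -((V.a + V.b) / 2) := by ring
    rw [h, KI_cdr]
  · intro t
    exact qr_neg V.a V.b t

end

end Pool.Agent.Helper31.CV.MR
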