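import Pool.Agent.Helper36.CV.StmtsR

set_option autoImplicit false

namespace Pool.Agent.Helper31.CV.N0

open Pool.Agent.Helper36.CV

lemma s5 : Real.sqrt 5 * Real.sqrt 5 = 5 := Real.mul_self_sqrt (by norm_num)

lemma s5_lb : (2236 / 1000 : ℝ) < Real.sqrt 5 := by
  apply Real.lt_sqrt_of_sq_lt
  norm_num

lemma s5_ub : Real.sqrt 5 < (2237 / 1000 : ℝ) := by
  rw [Real.sqrt_lt' (by norm_num)]
  norm_num

lemma gam_sq : gam * gam = 1 - gam := by
  unfold gam
  nlinarith [s5]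

lemma phi_eq : phi = 1 + gam := by
  unfold phi gam
  ring

lemma gam_phi : gam * phi = 1 := by
  rw [phi_eq]
  linarith [gam_sq]

lemma phi_pos : 0 < phi := by
  unfold phi
  linarith [s5_lb]

lemma phi_gt : 1 < phi := by
  unfold phi
  linarith [s5_lb]

lemma gam_pos : 0 < gam := by
  unfold gam
  linarith [s5_lb]

lemma phi_inv : phi⁻¹ = gam := by
  rw [inv_eq_iff_eq_inv]
  exact (eq_inv_of_mul_eq_one_left (by rw [mul_comm]; exact gam_phi))

lemma s5_irr : Irrational (Real.sqrt 5) := by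
  have h : Nat.Prime 5 := by norm_num
  have := Nat.Prime.irrational_sqrt h
  simpa using this

lemma lin_zero (a b : ℤ) (h : (a : ℝ) + b * gam = 0) : a = 0 ∧ b = 0 := by
  have hb : b = 0 := by
    by_contra hb
    have hb' : (b : ℝ) ≠ 0 := by exact_mod_cast hb
    apply s5_irr
    refine ⟨((b : ℚ) - 2 * a) / b, ?_⟩
    push_cast
    rw [div_eq_iff hb']
    unfold gam at h
    linarith
  subst hb
  simp at h
  exact ⟨h, rfl⟩

lemma lin_inj (a b c d : ℤ) (h : (a : ℝ) + b * gam = c + d * gam) : a = c ∧ b = d := by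
  have h1 : ((a - c : ℤ) : ℝ) + ((b - d : ℤ) : ℝ) * gam = 0 := by
    push_cast
    linarith
  obtain ⟨h2, h3⟩ := lin_zero _ _ h1
  omega

lemma zv_mul (x y : ℤ × ℤ) : zv (zm x y) = zv x * zv y := by
  unfold zv zm
  push_cast
  linear_combination (-(x.2 : ℝ) * y.2) * gam_sq

lemma phi_sq : phi * phi = 1 + phi := by
  rw [phi_eq]
  linarith [gam_sq]

lemma zc_mul (x y : ℤ × ℤ) : zc (zm x y) = zc x * zc y := by
  unfold zc zm
  push_cast
  linear_combination (-(x.2 : ℝ) * y.2) * phi_sq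

lemma zn_mul (x y : ℤ × ℤ) : zn (zm x y) = zn x * zn y := by
  unfold zn zm
  ring

lemma zv_zc (x : ℤ × ℤ) : zv x * zc x = zn x := by
  unfold zv zc zn
  rw [phi_eq]
  push_cast
  linear_combination (-(x.2 : ℝ) * x.2) * gam_sq

lemma zv_inj (x y : ℤ × ℤ) (h : zv x = zv y) : x = y := by
  obtain ⟨h1, h2⟩ := lin_inj _ _ _ _ h
  exact Prod.ext h1 h2

lemma zn_zero (x : ℤ × ℤ) (h : zn x = 0) : x = 0 := by
  have h1 := zv_zc x
  rw [h] at h1
  simp only [Int.cast_zero, mul_eq_zero] at h1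
  rcases h1 with h1 | h1
  · obtain ⟨h2, h3⟩ := lin_zero _ _ h1
    exact Prod.ext h2 h3
  · unfold zc at h1
    have h4 : ((x.1 - x.2 : ℤ) : ℝ) + ((-x.2 : ℤ) : ℝ) * gam = 0 := by
      rw [phi_eq] at h1
      push_cast
      linarith
    obtain ⟨h2, h3⟩ := lin_zero _ _ h4
    refine Prod.ext ?_ ?_
    · show x.1 = 0
      omega
    · show x.2 = 0
      omega

/-- members of the ring of integers -/
def InZ (r : ℝ) : Prop := ∃ a : ℤ × ℤ, r = zv a

lemma InZ.mul {r s : ℝ} (hr : InZ r) (hs : InZ s) : InZ (r * s) := by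
  obtain ⟨a, rfl⟩ := hr
  obtain ⟨b, rfl⟩ := hs
  exact ⟨zm a b, (zv_mul a b).symm⟩

lemma InZ.add {r s : ℝ} (hr : InZ r) (hs : InZ s) : InZ (r + s) := by
  obtain ⟨a, rfl⟩ := hr
  obtain ⟨b, rfl⟩ := hs
  refine ⟨(a.1 + b.1, a.2 + b.2), ?_⟩
  unfold zv
  push_cast
  ring

lemma InZ.int (n : ℤ) : InZ n := ⟨(n, 0), by unfold zv; simp⟩

lemma InZ.ofNat (n : ℤ) (r : ℝ) (h : r = n) : InZ r := by
  rw [h]
  exact InZ.int n

lemma InZ.neg {r : ℝ} (hr : InZ r) : InZ (-r) := by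
  have h := (InZ.int (-1)).mul hr
  have h2 : ((-1 : ℤ) : ℝ) * r = -r := by push_cast; ring
  rwa [h2] at h

lemma InZ.gam : InZ gam := ⟨(0, 1), by unfold zv; simp⟩

lemma InZ.phi : InZ phi := ⟨(1, 1), by unfold zv; rw [phi_eq]; simp⟩

/-- powers of a number congruent to one -/
lemma pow_cong (m : ℤ) (c : ℝ) (hc : InZ c) (n : ℕ) : ∃ d : ℝ, InZ d ∧ (1 + m * c) ^ n = 1 + m * d := by
  induction n with
  | zero => exact ⟨0, InZ.ofNat 0 0 (by simp), by simp⟩
  | succ n ih =>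
    obtain ⟨d, hd, h⟩ := ih
    refine ⟨d + c + m * (c * d), (hd.add hc).add ((InZ.int m).mul (hc.mul hd)), ?_⟩
    rw [pow_succ, h]
    ring

lemma zpow_cong (m : ℤ) (u c c' : ℝ) (hc : InZ c) (hc' : InZ c') (h1 : u = 1 + m * c)
    (h2 : u⁻¹ = 1 + m * c') (j : ℤ) : ∃ d : ℝ, InZ d ∧ u ^ j = 1 + m * d := by
  rcases Int.eq_nat_or_neg j with ⟨n, rfl | rfl⟩
  · obtain ⟨d, hd, h⟩ := pow_cong m c hc n
    exact ⟨d, hd, by rw [zpow_natCast, h1, h]⟩
  · obtain ⟨d, hd, h⟩ := pow_cong m c' hc' n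
    refine ⟨d, hd, ?_⟩
    rw [zpow_neg, zpow_natCast, ← inv_pow, h2, h]

lemma phi3 : phi ^ 3 = 3 + 2 * gam := by
  have h : phi ^ 3 = phi * phi * phi := by ring
  rw [h, phi_sq]
  have h2 := phi_sq
  rw [add_mul, h2, phi_eq]
  ring

lemma phi3_inv : (phi ^ 3)⁻¹ = 2 * gam - 1 := by
  rw [← inv_pow, phi_inv]
  have h : gam ^ 3 = gam * gam * gam := by ring
  rw [h, gam_sq, sub_mul, gam_sq]
  ring

lemma phi6 : phi ^ 6 = 13 + 8 * gam := by
  have h : phi ^ 6 = phi ^ 3 * phi ^ 3 := by ring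
  rw [h, phi3]
  linear_combination 4 * gam_sq

lemma phi6_inv : (phi ^ 6)⁻¹ = 5 - 8 * gam := by
  have h : (phi ^ 6)⁻¹ = (phi ^ 3)⁻¹ * (phi ^ 3)⁻¹ := by
    rw [← mul_inv]
    ring
  rw [h, phi3_inv]
  linear_combination 4 * gam_sq

lemma pow3 (j : ℤ) : ∃ d : ℝ, InZ d ∧ phi ^ (3 * j) = 1 + 2 * d := by
  have h := zpow_cong 2 (phi ^ 3) (1 + gam) (gam - 1)
    ((InZ.ofNat 1 1 (by simp)).add InZ.gam)
    (by
      have := InZ.gam.add (InZ.int (-1))
      have h2 : gam + ((-1 : ℤ) : ℝ) = gam - 1 := by push_cast; ring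
      rwa [h2] at this)
    (by rw [phi3]; push_cast; ring) (by rw [phi3_inv]; push_cast; ring) j
  obtain ⟨d, hd, h⟩ := h
  refine ⟨d, hd, ?_⟩
  rw [zpow_mul]
  have h2 : phi ^ (3 : ℤ) = phi ^ 3 := by norm_cast
  rw [h2, h]
  push_cast
  ring

lemma pow6 (j : ℤ) : ∃ d : ℝ, InZ d ∧ phi ^ (6 * j) = 1 + 4 * d := by
  have h := zpow_cong 4 (phi ^ 6) (3 + 2 * gam) (1 - 2 * gam)
    ⟨(3, 2), by unfold zv; push_cast; ring⟩
    ⟨(1, -2), by unfold zv; push_cast; ring⟩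
    (by rw [phi6]; push_cast; ring) (by rw [phi6_inv]; push_cast; ring) j
  obtain ⟨d, hd, h⟩ := h
  refine ⟨d, hd, ?_⟩
  rw [zpow_mul]
  have h2 : phi ^ (6 : ℤ) = phi ^ 6 := by norm_cast
  rw [h2, h]
  push_cast
  ring

lemma cong2 (k : ℤ) (a : ℤ × ℤ) (h : phi ^ k = 1 + 2 * zv a) : ∃ j : ℤ, k = 3 * j := by
  obtain ⟨d, ⟨e, rfl⟩, hd⟩ := pow3 (k / 3)
  have hk : k = 3 * (k / 3) + k % 3 := by omega
  have hr : k % 3 = 0 ∨ k % 3 = 1 ∨ k % 3 = 2 := by omega
  rcases hr with hr | hr | hr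
  · exact ⟨k / 3, by omega⟩
  · exfalso
    rw [hk, hr, zpow_add₀ phi_pos.ne', hd, zpow_one] at h
    obtain ⟨f, hf⟩ := (InZ.mul ⟨e, rfl⟩ InZ.phi : InZ (zv e * phi))
    have h1 : phi = 1 + 2 * (zv a - zv f) := by linarith
    rw [phi_eq] at h1
    unfold zv at h1
    have h2 : ((0 : ℤ) : ℝ) + ((1 : ℤ) : ℝ) * gam =
      ((2 * (a.1 - f.1) : ℤ) : ℝ) + ((2 * (a.2 - f.2) : ℤ) : ℝ) * gam := by
      push_cast
      linarith
    have := lin_inj _ _ _ _ h2
    omega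
  · exfalso
    rw [hk, hr, zpow_add₀ phi_pos.ne', hd] at h
    have h3 : phi ^ (2 : ℤ) = phi * phi := by
      have : phi ^ (2 : ℤ) = phi ^ 2 := by norm_cast
      rw [this]; ring
    rw [h3] at h
    obtain ⟨f, hf⟩ := (InZ.mul ⟨e, rfl⟩ (InZ.phi.mul InZ.phi) : InZ (zv e * (phi * phi)))
    have h1 : phi * phi = 1 + 2 * (zv a - zv f) := by linarith
    rw [phi_sq, phi_eq] at h1
    unfold zv at h1
    have h2 : ((1 : ℤ) : ℝ) + ((1 : ℤ) : ℝ) * gam =
      ((2 * (a.1 - f.1) : ℤ) : ℝ) + ((2 * (a.2 - f.2) : ℤ) : ℝ) * gam := by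
      push_cast
      linarith
    have := lin_inj _ _ _ _ h2
    omega

lemma cong4 (k : ℤ) (a : ℤ × ℤ) (h : phi ^ k = 1 + 4 * zv a) : ∃ j : ℤ, k = 6 * j := by
  have h0 : phi ^ k = 1 + 2 * zv (2 * a.1, 2 * a.2) := by
    rw [h]
    unfold zv
    push_cast
    ring
  obtain ⟨j, hj⟩ := cong2 k _ h0
  have hr : j % 2 = 0 ∨ j % 2 = 1 := by omega
  rcases hr with hr | hr
  · exact ⟨j / 2, by omega⟩
  · exfalso
    have hk : k = 6 * (j / 2) + 3 := by omega
    obtain ⟨d, ⟨e, rfl⟩, hd⟩ := pow6 (j / 2)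
    rw [hk, zpow_add₀ phi_pos.ne', hd] at h
    have h3 : phi ^ (3 : ℤ) = phi ^ 3 := by norm_cast
    rw [h3, phi3] at h
    obtain ⟨f, hf⟩ := (InZ.mul ⟨e, rfl⟩ ⟨(3, 2), rfl⟩ : InZ (zv e * zv (3, 2)))
    have h4 : zv (3, 2) = 3 + 2 * gam := by unfold zv; push_cast; ring
    rw [h4] at hf
    have h1 : 3 + 2 * gam = 1 + 4 * (zv a - zv f) := by linarith
    unfold zv at h1
    have h2 : ((2 : ℤ) : ℝ) + ((2 : ℤ) : ℝ) * gam =
      ((4 * (a.1 - f.1) : ℤ) : ℝ) + ((4 * (a.2 - f.2) : ℤ) : ℝ) * gam := by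
      push_cast
      linarith
    have := lin_inj _ _ _ _ h2
    omega

/-- the powers of phi are units of the ring -/
lemma pow_unit (k : ℤ) : ∃ u : ℤ × ℤ, |zn u| = 1 ∧ zv u = phi ^ k := by
  rcases Int.eq_nat_or_neg k with ⟨n, rfl | rfl⟩
  · induction n with
    | zero => exact ⟨(1, 0), by unfold zn; norm_num, by unfold zv; simp⟩
    | succ n ih =>
      obtain ⟨u, hu, hv⟩ := ih
      refine ⟨zm u (1, 1), ?_, ?_⟩
      · rw [zn_mul, abs_mul, hu]
        unfold zn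
        norm_num
      · rw [zv_mul, hv]
        have h1 : zv (1, 1) = phi := by unfold zv; rw [phi_eq]; push_cast; ring
        rw [h1]
        push_cast
        rw [zpow_add₀ phi_pos.ne', zpow_one]
  · induction n with
    | zero => exact ⟨(1, 0), by unfold zn; norm_num, by unfold zv; simp⟩
    | succ n ih =>
      obtain ⟨u, hu, hv⟩ := ih
      refine ⟨zm u (0, 1), ?_, ?_⟩
      · rw [zn_mul, abs_mul, hu]
        unfold zn
        norm_num
      · rw [zv_mul, hv]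
        have h1 : zv (0, 1) = gam := by unfold zv; push_cast; ring
        rw [h1, ← phi_inv]
        push_cast
        rw [neg_add, zpow_add₀ phi_pos.ne', zpow_neg_one]

lemma base_unit (w : ℤ × ℤ) (hn : |zn w| = 1) (h1 : 1 ≤ zv w) (h2 : zv w < phi) : w = (1, 0) := by
  obtain ⟨a, b⟩ := w
  have hz := zv_zc (a, b)
  have hc : |zc (a, b)| ≤ 1 := by
    have h3 : |zv (a, b)| * |zc (a, b)| = 1 := by
      rw [← abs_mul, hz, ← Int.cast_abs, hn]
      simp
    have h4 : 1 ≤ |zv (a, b)| := le_trans h1 (le_abs_self _)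
    nlinarith [abs_nonneg (zc (a, b))]
  have hlb := s5_lb
  have hub := s5_ub
  have hd : zv (a, b) - zc (a, b) = b * Real.sqrt 5 := by
    unfold zv zc gam phi
    ring
  rw [abs_le] at hc
  have hphi : phi < 1.62 := by unfold phi; linarith
  have hb1 : (b : ℝ) < 2 := by
    by_contra hb
    rw [not_lt] at hb
    nlinarith
  have hb2 : (-1 : ℝ) < b + 1 := by
    by_contra hb
    rw [not_lt] at hb
    nlinarith
  have hb3 : b < 2 := by exact_mod_cast hb1
  have hb4 : -1 < b + 1 := by exact_mod_cast hb2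
  have hb5 : b = -1 ∨ b = 0 ∨ b = 1 := by omega
  unfold zv at h1 h2
  simp only at h1 h2
  rcases hb5 with rfl | rfl | rfl
  · exfalso
    unfold gam at h1 h2
    push_cast at h1 h2
    have ha1 : (1 : ℝ) < a := by linarith
    have ha2 : (a : ℝ) < 3 := by linarith
    have ha3 : (1 : ℤ) < a := by exact_mod_cast ha1
    have ha4 : a < 3 := by exact_mod_cast ha2
    have ha : a = 2 := by omega
    subst ha
    unfold zn at hn
    norm_num at hn
  · have ha1 : (0 : ℝ) < a := by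
      push_cast at h1
      linarith
    have ha2 : (a : ℝ) < 2 := by
      push_cast at h2
      linarith
    have ha3 : (0 : ℤ) < a := by exact_mod_cast ha1
    have ha4 : a < 2 := by exact_mod_cast ha2
    have ha : a = 1 := by omega
    subst ha
    rfl
  · exfalso
    unfold gam at h1 h2
    unfold phi at h2
    push_cast at h1 h2
    have ha1 : (0 : ℝ) < a := by linarith
    have ha2 : (a : ℝ) < 1 := by linarith
    have ha3 : (0 : ℤ) < a := by exact_mod_cast ha1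
    have ha4 : a < 1 := by exact_mod_cast ha2
    omega

lemma unit_pow (x : ℤ × ℤ) (hn : |zn x| = 1) (hp : 0 < zv x) : ∃ k : ℤ, zv x = phi ^ k := by
  obtain ⟨k, hk⟩ := exists_mem_Ico_zpow hp phi_gt
  obtain ⟨u, hu, hv⟩ := pow_unit (-k)
  have hk1 : 0 < phi ^ k := zpow_pos phi_pos k
  have hk2 : 0 < phi ^ (-k) := zpow_pos phi_pos _
  have hkk : phi ^ k * phi ^ (-k) = 1 := by
    rw [← zpow_add₀ phi_pos.ne']
    simp
  have hw := base_unit (zm x u) (by rw [zn_mul, abs_mul, hn, hu]; norm_num)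
    (by
      rw [zv_mul, hv]
      calc (1 : ℝ) = phi ^ k * phi ^ (-k) := hkk.symm
        _ ≤ zv x * phi ^ (-k) := mul_le_mul_of_nonneg_right hk.1 hk2.le)
    (by
      rw [zv_mul, hv]
      have h3 : zv x * phi ^ (-k) < phi ^ (k + 1) * phi ^ (-k) := mul_lt_mul_of_pos_right hk.2 hk2
      have h4 : phi ^ (k + 1) * phi ^ (-k) = phi := by
        rw [← zpow_add₀ phi_pos.ne']
        simp
      linarith)
  have h5 : zv x * phi ^ (-k) = 1 := by
    rw [← hv, ← zv_mul, hw]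
    unfold zv
    simp
  refine ⟨k, ?_⟩
  have h6 : zv x * phi ^ (-k) * phi ^ k = phi ^ k := by rw [h5, one_mul]
  rw [mul_assoc, mul_comm (phi ^ (-k)), hkk, mul_one] at h6
  exact h6

theorem st_N0 : ST_N0 := by
  refine ⟨fun x y => ⟨zv_mul x y, zc_mul x y, zn_mul x y⟩, zv_zc, zn_zero, zv_inj, ?_, ?_, unit_pow,
    cong2, cong4⟩
  · intro p hp x
    have hs : zn p * zn p = 1 := by
      rcases (abs_eq (by norm_num : (0 : ℤ) ≤ 1)).mp hp with h | h <;> rw [h] <;> norm_num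
    refine ⟨(zn p * (zm (p.1 - p.2, -p.2) x).1, zn p * (zm (p.1 - p.2, -p.2) x).2), ?_⟩
    apply Prod.ext
    · have : (zm p (zn p * (zm (p.1 - p.2, -p.2) x).1, zn p * (zm (p.1 - p.2, -p.2) x).2)).1 =
        zn p * zn p * x.1 := by
        unfold zm zn
        ring
      rw [this, hs, one_mul]
    · have : (zm p (zn p * (zm (p.1 - p.2, -p.2) x).1, zn p * (zm (p.1 - p.2, -p.2) x).2)).2 =
        zn p * zn p * x.2 := by
        unfold zm zn
        ring
      rw [this, hs, one_mul]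
  · intro Hm Hp C cd V
    refine ⟨rfl, ?_⟩
    unfold Gap.N Gap.mu zc gam phi
    ring

end Pool.Agent.Helper31.CV.N0
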