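import Pool.Agent.Helper36.CV.StmtsQ

set_option autoImplicit false

namespace Pool.Agent.Helper31.CV.Q1

open Pool.Agent.Helper36.CV Complex Set

/-- imaginary part above the centre of a gap -/
lemma Y_center (h2 : ST_P2) (h3 : ST_P3) {Hm Hp : ℝ} {C : Set ℝ} (cd : CD Hm Hp C) (hH : 0 < Hm)
    (W : Gap cd) (r : ℝ) (hr : 0 < r) :
    W.s * Yf cd W.c r ≤ Real.sqrt (r ^ 2 + W.s ^ 2 / 4) * (2 * vf cd W.c) := by
  have hs : 0 < W.s := by unfold Gap.s; linarith [W.lt]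
  obtain ⟨_, _, _, h4, _⟩ := h2 Hm Hp C cd hH
  obtain ⟨_, _, _, _, hkk, _, _⟩ := h4 W
  obtain ⟨_, _, h5⟩ := h3 Hm Hp C cd W.a W.b W.N W.lt W.lab
  have h6 := h5 r hr
  have h7 : Yf cd W.c r ≤ ‖cd.f (((W.a + W.b) / 2 : ℝ) + (r : ℂ) * I) - W.N‖ := by
    have h8 : Yf cd W.c r = (cd.f (((W.a + W.b) / 2 : ℝ) + (r : ℂ) * I) - W.N).im := by
      unfold Yf Gap.c
      simp
    rw [h8]
    exact le_trans (le_abs_self _) (Complex.abs_im_le_norm _)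
  have h9 : KI cd W.a W.b ((W.a + W.b) / 2) = 2 * vf cd W.c / W.s := hkk
  rw [h9] at h6
  have h10 : (W.b - W.a) = W.s := rfl
  rw [h10] at h6
  have h11 : Yf cd W.c r ≤ Real.sqrt (r ^ 2 + W.s ^ 2 / 4) * (2 * vf cd W.c) / W.s := by
    rw [mul_div_assoc]
    linarith
  rw [le_div_iff₀ hs] at h11
  linarith

theorem st_Q1 (h1 : ST_P1) (h2 : ST_P2) (h3 : ST_P3) : ST_Q1 := by
  intro Hm Hp C cd hH W x d H hd hmeet hv hY
  have hs : 0 < W.s := by unfold Gap.s; linarith [W.lt]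
  obtain ⟨_, _, hmono, hharn, _, _⟩ := h1 Hm Hp C cd
  obtain ⟨_, _, _, h4, _⟩ := h2 Hm Hp C cd hH
  obtain ⟨_, _, _, _, _, _, hvc⟩ := h4 W
  have hcI : W.c ∈ Icc W.a W.b := by
    unfold Gap.c
    constructor <;> linarith [W.lt]
  have hvH : vf cd W.c ≤ H := hv _ hcI
  have hH0 : 0 < H := by linarith
  have hcx : |W.c - x| ≤ W.s / 2 + d := by
    obtain ⟨m1, m2⟩ := hmeet
    unfold Gap.c Gap.s
    rw [abs_le]
    constructor <;> linarith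
  -- general bound at scale R >= max s d
  have main : ∀ R : ℝ, 0 < R → d ≤ R → W.s ≤ R → W.s / 2 + d ≤ 3 / 2 * R →
      W.s * Yf cd x d ≤ 19 / 4 * (Real.sqrt (R ^ 2 + W.s ^ 2 / 4) * (2 * H)) := by
    intro R hR hdR _ hcR
    have hk : |W.c - x| / R ≤ 3 / 2 := by
      rw [div_le_iff₀ hR]
      linarith
    have hk0 : 0 ≤ |W.c - x| / R := by positivity
    have a1 : Yf cd x d ≤ Yf cd x R := (hmono x d R hd hdR).2.1
    have a2 : Yf cd x R ≤ (1 + |W.c - x| / R + (|W.c - x| / R) ^ 2) * Yf cd W.c R :=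
      hharn W.c x R hR (by
        have : |W.c - x| ≤ 3 / 2 * R := le_trans hcx hcR
        linarith)
    have hYc : 0 < Yf cd W.c R := (hmono W.c R R hR le_rfl).1
    have a3 : (1 + |W.c - x| / R + (|W.c - x| / R) ^ 2) ≤ 19 / 4 := by nlinarith
    have a4 : Yf cd x d ≤ 19 / 4 * Yf cd W.c R := by nlinarith
    have a5 := Y_center h2 h3 cd hH W R hR
    have hsq : 0 ≤ Real.sqrt (R ^ 2 + W.s ^ 2 / 4) := Real.sqrt_nonneg _
    have a6 : Real.sqrt (R ^ 2 + W.s ^ 2 / 4) * (2 * vf cd W.c) ≤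
        Real.sqrt (R ^ 2 + W.s ^ 2 / 4) * (2 * H) := mul_le_mul_of_nonneg_left (by linarith) hsq
    have a7 : W.s * Yf cd x d ≤ W.s * (19 / 4 * Yf cd W.c R) := mul_le_mul_of_nonneg_left a4 hs.le
    linarith
  have hYpos : 0 < Yf cd x d := by linarith
  have hsd : W.s ≤ d := by
    by_contra hcon
    rw [not_le] at hcon
    have b1 := main W.s hs hcon.le le_rfl (by linarith)
    have b2 : Real.sqrt (W.s ^ 2 + W.s ^ 2 / 4) ≤ 9 / 8 * W.s := by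
      rw [Real.sqrt_le_left (by positivity)]
      nlinarith
    have b3 : W.s * (12 * H) ≤ W.s * Yf cd x d := mul_le_mul_of_nonneg_left hY hs.le
    have b4 : Real.sqrt (W.s ^ 2 + W.s ^ 2 / 4) * (2 * H) ≤ 9 / 8 * W.s * (2 * H) :=
      mul_le_mul_of_nonneg_right b2 (by linarith)
    have b5 : 0 < W.s * H := mul_pos hs hH0
    nlinarith
  refine ⟨?_, hsd⟩
  have c1 := main d hd le_rfl hsd (by linarith)
  have hsq : 0 ≤ Real.sqrt (d ^ 2 + W.s ^ 2 / 4) := Real.sqrt_nonneg _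
  have hsq2 : Real.sqrt (d ^ 2 + W.s ^ 2 / 4) ^ 2 = d ^ 2 + W.s ^ 2 / 4 := Real.sq_sqrt (by positivity)
  have c2 : (W.s * Yf cd x d) ^ 2 ≤ (19 / 2) ^ 2 * (d ^ 2 + W.s ^ 2 / 4) * H ^ 2 := by
    have c3 : 0 ≤ W.s * Yf cd x d := by positivity
    have c4 := mul_self_le_mul_self c3 c1
    calc (W.s * Yf cd x d) ^ 2 = W.s * Yf cd x d * (W.s * Yf cd x d) := by ring
      _ ≤ 19 / 4 * (Real.sqrt (d ^ 2 + W.s ^ 2 / 4) * (2 * H)) *
          (19 / 4 * (Real.sqrt (d ^ 2 + W.s ^ 2 / 4) * (2 * H))) := c4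
      _ = (19 / 2) ^ 2 * (Real.sqrt (d ^ 2 + W.s ^ 2 / 4) ^ 2) * H ^ 2 := by ring
      _ = (19 / 2) ^ 2 * (d ^ 2 + W.s ^ 2 / 4) * H ^ 2 := by rw [hsq2]
  have c5 : 144 * H ^ 2 ≤ Yf cd x d ^ 2 := by nlinarith
  have c6 : 144 * (W.s ^ 2 * H ^ 2) ≤ W.s ^ 2 * Yf cd x d ^ 2 := by
    have := mul_le_mul_of_nonneg_left c5 (sq_nonneg W.s)
    linarith
  have c7 : (W.s * Yf cd x d) ^ 2 ≤ (21 / 2 * d * H) ^ 2 := by
    have e1 : (W.s * Yf cd x d) ^ 2 = W.s ^ 2 * Yf cd x d ^ 2 := by ring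
    have e2 : (21 / 2 * d * H) ^ 2 = (21 / 2) ^ 2 * (d ^ 2 * H ^ 2) := by ring
    have e3 : (19 / 2 : ℝ) ^ 2 * (d ^ 2 + W.s ^ 2 / 4) * H ^ 2 =
      (19 / 2) ^ 2 * (d ^ 2 * H ^ 2) + (19 / 2) ^ 2 / 4 * (W.s ^ 2 * H ^ 2) := by ring
    rw [e3] at c2
    rw [e1] at c2 ⊢
    rw [e2]
    have e4 : 0 ≤ d ^ 2 * H ^ 2 := by positivity
    nlinarith
  exact le_of_sq_le_sq c7 (by positivity)

end Pool.Agent.Helper31.CV.Q1
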