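import Pool.Agent.Helper36.CV.StmtsR

set_option autoImplicit false

namespace Pool.Agent.Helper31.CV.R0

open Pool.Agent.Helper36.CV

lemma wit_refl (ε a b l r : ℝ) (h : Wit ε a b l r) : Wit ε (-b) (-a) (-r) (-l) := by
  have hz : -l - -r = r - l := by ring
  have hs : -a - -b = b - a := by ring
  have hx : (-r + -l) / 2 - (-b + -a) / 2 = -((l + r) / 2 - (a + b) / 2) := by ring
  unfold Wit at h ⊢
  rw [hz, hs, hx, abs_neg, neg_sq]
  rcases h with h | h | ⟨h1, h | h⟩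
  · left
    exact ⟨by linarith [h.2], by linarith [h.1]⟩
  · right
    left
    exact ⟨h.1, by linarith [h.2.2], by linarith [h.2.1]⟩
  · right
    right
    exact ⟨h1, Or.inl ⟨by linarith [h.2], by linarith [h.1]⟩⟩
  · right
    right
    exact ⟨h1, Or.inr h⟩

lemma far (ε z h D : ℝ) (hε : 0 < ε) (hh : 0 < h) (hD : h < D)
    (hw : 8 * ε * D * (D ^ 2 - h ^ 2) ≤ z * h ^ 2) : D - h ≤ z / (16 * ε) := by
  rw [le_div_iff₀ (by positivity)]
  have h1 : 2 * h ^ 2 ≤ D * (D + h) := by nlinarith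
  have h2 : 8 * ε * (D - h) * (2 * h ^ 2) ≤ 8 * ε * (D - h) * (D * (D + h)) :=
    mul_le_mul_of_nonneg_left h1 (by nlinarith)
  have h3 : 8 * ε * (D - h) * (D * (D + h)) = 8 * ε * D * (D ^ 2 - h ^ 2) := by ring
  have h4 : ((D - h) * (16 * ε)) * h ^ 2 ≤ z * h ^ 2 := by nlinarith
  exact le_of_mul_le_mul_right h4 (by positivity)

theorem st_R0 : ST_R0 := by
  refine ⟨1 / 10 ^ 6, by norm_num, ?_⟩
  intro ε a b l r hε hε0 hab hlr
  refine ⟨⟨wit_refl ε a b l r, fun h => ?_⟩, ?_⟩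
  · have h2 := wit_refl _ _ _ _ _ h
    simpa only [neg_neg] using h2
  intro hw
  have hz : 0 < r - l := by linarith
  have hε1 : ε ≤ 1 / 1000 := le_trans hε0 (by norm_num)
  have hεz : 13 / 10 * ε * (r - l) ≤ (r - l) / 100 := by nlinarith
  have hpow0 : 0 ≤ ε ^ (2 / 3 : ℝ) := Real.rpow_nonneg hε.le _
  have hpow : ε ^ (2 / 3 : ℝ) ≤ 1 / 10 ^ 4 := by
    have h1 : ε ^ (2 / 3 : ℝ) ≤ (1 / 10 ^ 6 : ℝ) ^ (2 / 3 : ℝ) :=
      Real.rpow_le_rpow hε.le hε0 (by norm_num)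
    have h2 : (1 / 10 ^ 6 : ℝ) ^ (2 / 3 : ℝ) = 1 / 10 ^ 4 := by
      have h3 : (1 / 10 ^ 6 : ℝ) = (1 / 10 : ℝ) ^ (6 : ℝ) := by
        norm_num
      rw [h3, ← Real.rpow_mul (by norm_num)]
      have h4 : (6 : ℝ) * (2 / 3) = (4 : ℕ) := by norm_num
      rw [h4, Real.rpow_natCast]
      norm_num
    linarith
  have hdiv : r - l ≤ (r - l) / (16 * ε) := by
    rw [le_div_iff₀ (by positivity)]
    nlinarith
  have key : |(a + b) / 2 - (l + r) / 2| = |(l + r) / 2 - (a + b) / 2| := abs_sub_comm _ _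
  unfold Wit at hw
  rcases hw with hw | hw | ⟨hw, h | h⟩
  · have hc : |(a + b) / 2 - (l + r) / 2| ≤ ((b - a) - (r - l)) / 2 + 13 / 10 * ε * (r - l) := by
      rw [abs_le]
      constructor <;> linarith [hw.1, hw.2]
    refine ⟨by linarith [hw.1, hw.2], by linarith [hw.1], by linarith [hw.2], fun _ => hc, fun _ => ?_,
      Or.inl ?_⟩
    · linarith
    · linarith
  · obtain ⟨h1, h2, h3⟩ := hw
    have hs : (r - l) ≤ b - a := by nlinarith
    have hc : |(a + b) / 2 - (l + r) / 2| ≤ ((b - a) - (r - l)) / 2 + (r - l) / 10 := by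
      rw [abs_le]
      constructor <;> linarith
    refine ⟨by nlinarith, by linarith, by linarith, fun h => absurd h (not_lt.mpr h1), fun _ => hc,
      Or.inl ?_⟩
    linarith
  · obtain ⟨h1, h2⟩ := h
    refine ⟨by nlinarith, by linarith, by linarith, fun h => ?_, fun h => absurd h (not_lt.mpr hw),
      Or.inr (Or.inl ⟨hw, ?_⟩)⟩
    · exfalso
      nlinarith
    · rw [abs_le]
      constructor <;> linarith
  · obtain ⟨h1, h2⟩ := h
    have h3 : ((l + r) / 2 - (a + b) / 2) ^ 2 = |(l + r) / 2 - (a + b) / 2| ^ 2 := (sq_abs _).symm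
    have h4 := far ε (r - l) ((b - a) / 2) |(l + r) / 2 - (a + b) / 2| hε (by linarith) h1
      (by rw [← h3]; exact h2)
    refine ⟨by nlinarith, ?_, ?_, fun h => ?_, fun h => absurd h (not_lt.mpr hw),
      Or.inr (Or.inr ⟨hw, h1, h2⟩)⟩
    · rw [← key] at h4
      linarith [le_abs_self ((a + b) / 2 - (l + r) / 2)]
    · linarith [le_abs_self ((l + r) / 2 - (a + b) / 2)]
    · exfalso
      nlinarith

end Pool.Agent.Helper31.CV.R0
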