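import Pool.Agent.Helper36.CV.StmtsR

set_option autoImplicit false

namespace Pool.Agent.Helper31.CV.R13

open Pool.Agent.Helper36.CV

lemma rpow_le_of {ε a b : ℝ} (h0 : 0 < ε) (h1 : ε ≤ 1) (hab : b ≤ a) : ε ^ a ≤ ε ^ b :=
  Real.rpow_le_rpow_of_exponent_ge h0 h1 hab

lemma small (M : ℝ) (hM : 1 ≤ M) (ε : ℝ) (hε : 0 < ε) (hs : ε ≤ (1 / M) ^ (100 : ℝ)) :
    M * ε ^ (1 / 100 : ℝ) ≤ 1 := by
  have h1 : ε ^ (1 / 100 : ℝ) ≤ ((1 / M) ^ (100 : ℝ)) ^ (1 / 100 : ℝ) :=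
    Real.rpow_le_rpow hε.le hs (by norm_num)
  have h2 : ((1 / M) ^ (100 : ℝ)) ^ (1 / 100 : ℝ) = 1 / M := by
    rw [← Real.rpow_mul (by positivity)]
    norm_num
  rw [h2] at h1
  have h3 : M * ε ^ (1 / 100 : ℝ) ≤ M * (1 / M) := mul_le_mul_of_nonneg_left h1 (by linarith)
  have h4 : M * (1 / M) = 1 := by field_simp
  linarith

theorem st_R13 (h10 : ST_Q10) (h3 : ST_R3) (h6 : ST_R6) (h11 : ST_R11) (h12 : ST_R12) : ST_R13 := by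
  intro cK hcK
  obtain ⟨K, ε10, hK, hε10, H10⟩ := h10
  obtain ⟨ε3, hε3, H3⟩ := h3 cK hcK
  obtain ⟨ε6, hε6, H6⟩ := h6 cK hcK
  obtain ⟨ε11, hε11, H11⟩ := h11 cK hcK
  obtain ⟨ε12, hε12, H12⟩ := h12 cK hcK
  refine ⟨min (min (min ε10 ε3) (min ε6 ε11)) (min (min ε12 (1 / 10 ^ 6)) ((1 / (6 * K)) ^ (100 : ℝ))),
    by positivity, ?_⟩
  intro ε Hm Hp C cd hpar hε τ0 l r l0 r0 l1 r1 l2 r2 k0 s0 k1 s1 k2 s2 V0 VL VR hC1 hWL hWR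
  have e10 : ε ≤ ε10 := le_trans hε (le_trans (min_le_left _ _) (le_trans (min_le_left _ _) (min_le_left _ _)))
  have e3 : ε ≤ ε3 := le_trans hε (le_trans (min_le_left _ _) (le_trans (min_le_left _ _) (min_le_right _ _)))
  have e6 : ε ≤ ε6 := le_trans hε (le_trans (min_le_left _ _) (le_trans (min_le_right _ _) (min_le_left _ _)))
  have e11 : ε ≤ ε11 := le_trans hε (le_trans (min_le_left _ _) (le_trans (min_le_right _ _) (min_le_right _ _)))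
  have e12 : ε ≤ ε12 := le_trans hε (le_trans (min_le_right _ _) (le_trans (min_le_left _ _) (min_le_left _ _)))
  have e1 : ε ≤ 1 / 10 ^ 6 := le_trans hε (le_trans (min_le_right _ _) (le_trans (min_le_left _ _) (min_le_right _ _)))
  have eK : ε ≤ (1 / (6 * K)) ^ (100 : ℝ) := le_trans hε (le_trans (min_le_right _ _) (min_le_right _ _))
  have hε0 : 0 < ε := hpar.1
  have hε1 : ε ≤ 1 := le_trans e1 (by norm_num)
  obtain ⟨hpair, hNL⟩ := H12 ε Hm Hp C cd hpar e12 τ0 l r l0 r0 l1 r1 l2 r2 k0 s0 k1 s1 k2 s2 V0 hC1 VL VR hWL hWR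
  set x := (l2 + r2) / 2 with hx
  set ρ := r2 - l2 with hρdef
  set D := x - V0.b with hD
  have hρ : 0 < ρ := by
    have := hC1.kidsY.lt
    rw [hρdef]
    linarith
  obtain ⟨g1, _, g3, g4, g5, _, _, _, _, g10, _⟩ := H11 ε Hm Hp C cd hpar e11 τ0 l r l0 r0 l1 r1 l2 r2 k0 s0 k1 s1 k2 s2
    V0 hC1 x ρ D hx hρdef hD
  have hsm := small (6 * K) (by linarith) ε hε0 eK
  -- powers
  have hpm21 : ε⁻¹ ≤ ε ^ (-(21 / 20) : ℝ) := by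
    have : ε⁻¹ = ε ^ (-1 : ℝ) := by rw [Real.rpow_neg_one]
    rw [this]
    exact rpow_le_of hε0 hε1 (by norm_num)
  have hDub : D ≤ ε ^ (-(21 / 20) : ℝ) * ρ := by
    have a1 : ρ / (16 * ε) = ε⁻¹ * ρ * (1 / 16) := by field_simp
    have a2 : ε⁻¹ * ρ ≤ ε ^ (-(21 / 20) : ℝ) * ρ := mul_le_mul_of_nonneg_right hpm21 hρ.le
    have a3 : 0 < ε⁻¹ * ρ := by positivity
    linarith
  obtain ⟨c1, _, c3, _, c5, _⟩ := H6 ε Hm Hp C cd hpar e6 1 l2 r2 k0 s0 k1 s1 k2 s2 VL VR hpair D V0 hNL hDub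
  obtain ⟨_, d2, _⟩ := H3 ε Hm Hp C cd hpar e3 1 l2 r2 k0 s0 k1 s1 k2 s2 VL VR hpair
  set R := V0.s / (4 * ε) with hR
  have hs0 : 0 < V0.s := by unfold Gap.s; linarith [V0.lt]
  have hR0 : 0 < R := by positivity
  have hRs : R * (4 * ε) = V0.s := by rw [hR]; field_simp
  have hp23 : ε ^ (2 / 3 : ℝ) ≤ 1 / 10 ^ 4 := by
    have h1 : ε ^ (2 / 3 : ℝ) ≤ (1 / 10 ^ 6 : ℝ) ^ (2 / 3 : ℝ) :=
      Real.rpow_le_rpow hε0.le e1 (by norm_num)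
    have h2 : (1 / 10 ^ 6 : ℝ) ^ (2 / 3 : ℝ) = 1 / 10 ^ 4 := by
      have h3 : (1 / 10 ^ 6 : ℝ) = (1 / 10 : ℝ) ^ (6 : ℝ) := by
        norm_num
      rw [h3, ← Real.rpow_mul (by norm_num)]
      have h4 : (6 : ℝ) * (2 / 3) = (4 : ℕ) := by norm_num
      rw [h4, Real.rpow_natCast]
      norm_num
    linarith
  have hs0ub : ε * V0.s ≤ 11 / 10 * ρ := by
    have b0 : 0 ≤ ε * V0.s := by positivity
    have b1 : (1 - 31 / 10 ^ 4) * (ε * V0.s) ≤ (1 - 31 * ε ^ (2 / 3 : ℝ)) * (ε * V0.s) :=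
      mul_le_mul_of_nonneg_right (by linarith only [hp23]) b0
    linarith only [b0, b1, g4, hρ]
  have hD0 : 0 < D := by linarith
  have hDs : D ≤ V0.s / 10 := by
    have a1 : D * (16 * ε) ≤ ρ := by
      rwa [le_div_iff₀ (by positivity)] at g3
    have a2 : D * (16 * ε) ≤ 115 / 100 * (ε * V0.s) := le_trans a1 g5
    have a3 : ε * (D * 16) ≤ ε * (115 / 100 * V0.s) := by linarith
    have a4 := le_of_mul_le_mul_left a3 hε0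
    linarith
  have hp30 : ε ^ (3 / 10 : ℝ) = ε * ε ^ (-(7 / 10) : ℝ) := by
    have : ε * ε ^ (-(7 / 10) : ℝ) = ε ^ (1 : ℝ) * ε ^ (-(7 / 10) : ℝ) := by rw [Real.rpow_one]
    rw [this, ← Real.rpow_add hε0]
    norm_num
  have hp70 : (100 : ℝ) ≤ ε ^ (-(7 / 10) : ℝ) := by
    have h1 : (1 / 10 ^ 6 : ℝ) ^ (-(7 / 10) : ℝ) ≤ ε ^ (-(7 / 10) : ℝ) :=
      Real.rpow_le_rpow_of_nonpos hε0 e1 (by norm_num)
    have h2 : (100 : ℝ) ≤ (1 / 10 ^ 6 : ℝ) ^ (-(7 / 10) : ℝ) := by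
      have h3 : (1 / 10 ^ 6 : ℝ) = (10 : ℝ) ^ (-6 : ℝ) := by
        rw [Real.rpow_neg (by norm_num)]
        norm_num
      rw [h3, ← Real.rpow_mul (by norm_num)]
      have h4 : (100 : ℝ) = (10 : ℝ) ^ (2 : ℝ) := by norm_num
      rw [h4]
      exact Real.rpow_le_rpow_of_exponent_le (by norm_num) (by norm_num)
    linarith
  have hcond : D + V0.s ≤ ε ^ (3 / 10 : ℝ) * R := by
    have a1 : ε ^ (3 / 10 : ℝ) * R = ε ^ (-(7 / 10) : ℝ) * V0.s / 4 := by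
      rw [hp30, hR]
      field_simp
    rw [a1]
    have a2 : 100 * V0.s ≤ ε ^ (-(7 / 10) : ℝ) * V0.s := mul_le_mul_of_nonneg_right hp70 hs0.le
    linarith only [a2, hDs, hs0]
  obtain ⟨P0, P1, hP0, hP1, _, _, hlaw⟩ := H10 ε Hm Hp C cd hpar e10 V0 x ρ D R g10 c5 hD hρ c1.le hDub hcond c3 d2
  have hρR : ρ / R ≤ 5 * ε ^ 2 := by
    rw [div_le_iff₀ hR0]
    have a1 : 5 * ε ^ 2 * R = 5 / 4 * (ε * (R * (4 * ε))) := by ring
    rw [a1, hRs]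
    linarith [mul_pos hε0 hs0]
  have hDR : D / R ≤ ε := by
    rw [div_le_iff₀ hR0]
    have a1 : ε * R = (R * (4 * ε)) / 4 := by ring
    rw [a1, hRs]
    linarith
  have hRD : R / D ≤ ε ^ (-2 : ℝ) := by
    rw [div_le_iff₀ hD0]
    have a1 : ε ^ (-2 : ℝ) = (ε ^ 2)⁻¹ := by
      rw [Real.rpow_neg hε0.le, Real.rpow_two]
    rw [a1, inv_mul_eq_div, le_div_iff₀ (by positivity)]
    have a2 : R * ε ^ 2 = ε * (R * (4 * ε)) / 4 := by ring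
    rw [a2, hRs]
    linarith
  have hRD1 : (R / D) ^ (1 / 10 : ℝ) ≤ ε ^ (-(1 / 5) : ℝ) := by
    have a1 : (R / D) ^ (1 / 10 : ℝ) ≤ (ε ^ (-2 : ℝ)) ^ (1 / 10 : ℝ) :=
      Real.rpow_le_rpow (by positivity) hRD (by norm_num)
    have a2 : (ε ^ (-2 : ℝ)) ^ (1 / 10 : ℝ) = ε ^ (-(1 / 5) : ℝ) := by
      rw [← Real.rpow_mul hε0.le]
      norm_num
    linarith
  have hRD0 : 0 ≤ (R / D) ^ (1 / 10 : ℝ) := Real.rpow_nonneg (by positivity) _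
  have hε2 : ε ^ 2 = ε ^ (2 : ℝ) := (Real.rpow_two ε).symm
  -- first small term
  have t1 : ρ / R * (R / D) ^ (1 / 10 : ℝ) ≤ 5 * ε ^ (115 / 100 : ℝ) := by
    have a1 : ρ / R * (R / D) ^ (1 / 10 : ℝ) ≤ 5 * ε ^ 2 * ε ^ (-(1 / 5) : ℝ) :=
      mul_le_mul hρR hRD1 hRD0 (by positivity)
    have a2 : 5 * ε ^ 2 * ε ^ (-(1 / 5) : ℝ) = 5 * ε ^ (9 / 5 : ℝ) := by
      rw [hε2, mul_assoc, ← Real.rpow_add hε0]
      norm_num
    have a3 : ε ^ (9 / 5 : ℝ) ≤ ε ^ (115 / 100 : ℝ) := rpow_le_of hε0 hε1 (by norm_num)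
    linarith
  have t2 : ρ * D / R ^ 2 * (R / D) ^ (1 / 10 : ℝ) ≤ 5 * ε ^ (117 / 100 : ℝ) := by
    have a0 : ρ * D / R ^ 2 = ρ / R * (D / R) := by
      field_simp
    have a00 : ρ / R * (D / R) ≤ 5 * ε ^ 2 * ε := mul_le_mul hρR hDR (by positivity) (by positivity)
    have a1 : ρ * D / R ^ 2 * (R / D) ^ (1 / 10 : ℝ) ≤ 5 * ε ^ 2 * ε * ε ^ (-(1 / 5) : ℝ) := by
      rw [a0]
      exact mul_le_mul a00 hRD1 hRD0 (by positivity)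
    have a2 : 5 * ε ^ 2 * ε * ε ^ (-(1 / 5) : ℝ) = 5 * (ε ^ (9 / 5 : ℝ) * ε) := by
      have : ε ^ (9 / 5 : ℝ) = ε ^ (2 : ℝ) * ε ^ (-(1 / 5) : ℝ) := by
        rw [← Real.rpow_add hε0]
        norm_num
      rw [this, hε2]
      ring
    have a3 : ε ^ (9 / 5 : ℝ) ≤ ε ^ (117 / 100 : ℝ) := rpow_le_of hε0 hε1 (by norm_num)
    have a4 : 0 < ε ^ (9 / 5 : ℝ) := Real.rpow_pos_of_pos hε0 _
    have a5 : ε ^ (9 / 5 : ℝ) * ε ≤ ε ^ (9 / 5 : ℝ) * 1 := mul_le_mul_of_nonneg_left hε1 a4.le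
    linarith only [a1, a2, a3, a5]
  have t3 : K * (ε ^ (115 / 100 : ℝ) + ρ / R * (R / D) ^ (1 / 10 : ℝ)) ≤ ε ^ (114 / 100 : ℝ) := by
    have a1 : ε ^ (115 / 100 : ℝ) = ε ^ (114 / 100 : ℝ) * ε ^ (1 / 100 : ℝ) := by
      rw [← Real.rpow_add hε0]
      norm_num
    have a2 : K * (ε ^ (115 / 100 : ℝ) + ρ / R * (R / D) ^ (1 / 10 : ℝ)) ≤
        K * (6 * ε ^ (115 / 100 : ℝ)) := mul_le_mul_of_nonneg_left (by linarith) (by linarith)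
    have a3 : K * (6 * ε ^ (115 / 100 : ℝ)) = ε ^ (114 / 100 : ℝ) * (6 * K * ε ^ (1 / 100 : ℝ)) := by
      rw [a1]
      ring
    have a4 : 0 < ε ^ (114 / 100 : ℝ) := Real.rpow_pos_of_pos hε0 _
    have a5 := mul_le_mul_of_nonneg_left hsm a4.le
    linarith only [a2, a3, a5]
  have t4 : K * eB ε ρ D R ≤ ε ^ (116 / 100 : ℝ) := by
    unfold eB
    have a1 : ε ^ (117 / 100 : ℝ) = ε ^ (116 / 100 : ℝ) * ε ^ (1 / 100 : ℝ) := by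
      rw [← Real.rpow_add hε0]
      norm_num
    have a2 : K * (ε ^ (117 / 100 : ℝ) + ρ * D / R ^ 2 * (R / D) ^ (1 / 10 : ℝ)) ≤
        K * (6 * ε ^ (117 / 100 : ℝ)) := mul_le_mul_of_nonneg_left (by linarith) (by linarith)
    have a3 : K * (6 * ε ^ (117 / 100 : ℝ)) = ε ^ (116 / 100 : ℝ) * (6 * K * ε ^ (1 / 100 : ℝ)) := by
      rw [a1]
      ring
    have a4 : 0 < ε ^ (116 / 100 : ℝ) := Real.rpow_pos_of_pos hε0 _
    have a5 := mul_le_mul_of_nonneg_left hsm a4.le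
    linarith only [a2, a3, a5]
  have hP01 : P0 * (P1 / P0) = P1 := by field_simp
  refine ⟨P0, P1 / P0, ⟨hC1, rfl, rfl, hpair, ⟨rfl, hP0, ?_, ?_⟩⟩⟩
  · rw [abs_div, abs_of_pos hP0, div_mul_eq_mul_div, div_le_iff₀ hP0]
    refine le_trans hP1 ?_
    exact mul_le_mul_of_nonneg_right t3 hP0.le
  · intro V hVa hVb hVs
    rw [hP01]
    obtain ⟨b1, b2⟩ := hlaw V hVa hVb hVs
    have hY : 0 ≤ Yf cd x ρ := by
      have : 0 < (cd.f ((x : ℂ) + (ρ : ℂ) * Complex.I)).im := by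
        apply cd.im_pos
        simp
        exact hρ
      exact this.le
    have b3 : K * eB ε ρ D R * Yf cd x ρ ≤ ε ^ (116 / 100 : ℝ) * Yf cd x ρ := mul_le_mul_of_nonneg_right t4 hY
    have b4 : K * eB ε ρ D R * Yf cd x ρ / ρ ≤ ε ^ (116 / 100 : ℝ) * Yf cd x ρ / ρ :=
      div_le_div_of_nonneg_right b3 hρ.le
    exact ⟨by linarith, by linarith⟩

end Pool.Agent.Helper31.CV.R13
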