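import Pool.Agent.Helper36.CV.StmtsR

set_option autoImplicit false

namespace Pool.Agent.Helper31.CV.R18

open Pool.Agent.Helper36.CV

lemma not_pst (h2 : ST_P2) {ε Hm Hp : ℝ} {C : Set ℝ} (cd : CD Hm Hp C) (hpar : Par ε Hm Hp) (l r : ℝ)
    (h : ¬ PSt C ε l r) : ∃ V : Gap cd, Wit ε V.a V.b l r := by
  unfold PSt at h
  push Not at h
  obtain ⟨a, b, hG, hW⟩ := h
  obtain ⟨_, _, h3, _⟩ := h2 Hm Hp C cd hpar.2.1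
  obtain ⟨V, rfl, rfl⟩ := h3 a b hG
  exact ⟨V, hW⟩

theorem st_R18 (h2 : ST_P2) (h13 : ST_R13) (h17 : ST_R17) (hN : ST_N1) : ST_R18 := by
  intro cK hcK
  obtain ⟨ε1, hε1, H13⟩ := h13 cK hcK
  obtain ⟨ε2, hε2, H17⟩ := h17 cK hcK
  obtain ⟨ε3, hε3, HN⟩ := hN
  refine ⟨min ε1 (min ε2 ε3), by positivity, ?_⟩
  intro ε Hm Hp C cd hpar hε hA τ0 l r l0 r0 l1 r1 l2 r2 k0 s0 k1 s1 k2 s2 V0 hC1
  have e1 : ε ≤ ε1 := le_trans hε (min_le_left _ _)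
  have e2 : ε ≤ ε2 := le_trans hε (le_trans (min_le_right _ _) (min_le_left _ _))
  have e3 : ε ≤ ε3 := le_trans hε (le_trans (min_le_right _ _) (min_le_right _ _))
  by_contra hcon
  rw [not_or, not_or] at hcon
  obtain ⟨hc0, hc1, hc2⟩ := hcon
  obtain ⟨VL, hVL⟩ := not_pst h2 cd hpar k0 s0 hc0
  obtain ⟨G, hG⟩ := not_pst h2 cd hpar k1 s1 hc1
  obtain ⟨VR, hVR⟩ := not_pst h2 cd hpar k2 s2 hc2
  obtain ⟨P0, c, hCI⟩ := H13 ε Hm Hp C cd hpar e1 τ0 l r l0 r0 l1 r1 l2 r2 k0 s0 k1 s1 k2 s2 V0 VL VR hC1 hVL hVR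
  obtain ⟨y, z, hyz⟩ := H17 ε Hm Hp C cd hpar e2 _ _ _ τ0 l r l0 r0 l1 r1 l2 r2 k0 s0 k1 s1 k2 s2 V0 VL VR P0 c
    hCI G hG
  exact HN ε hpar.1 e3 hA y z hyz

end Pool.Agent.Helper31.CV.R18
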