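import Pool.Agent.Helper36.CV.StmtsR

set_option autoImplicit false

namespace Pool.Agent.Helper31.CV.R4

open Pool.Agent.Helper36.CV Complex Set MeasureTheory

lemma qr_abs (a b t : ℝ) : |qr a b t| = Real.sqrt ((t - a) * (t - b)) := by
  unfold qr
  split_ifs
  · exact abs_of_nonneg (Real.sqrt_nonneg _)
  · rw [abs_neg]
    exact abs_of_nonneg (Real.sqrt_nonneg _)

lemma vf_cont {Hm Hp : ℝ} {C : Set ℝ} (cd : CD Hm Hp C) : Continuous (vf cd) := by
  have h : Continuous (fun t : ℝ => cd.f (t : ℂ)) := by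
    apply cd.cont.comp_continuous Complex.continuous_ofReal
    intro t
    show 0 ≤ ((t : ℂ)).im
    simp
  exact Complex.continuous_im.comp h

/-- v/|q| is integrable on compact intervals -/
lemma int_on (h3 : ST_P3) {Hm Hp : ℝ} {C : Set ℝ} (cd : CD Hm Hp C) (V : Gap cd) (u w : ℝ) :
    IntegrableOn (fun t => vf cd t / |V.q t|) (Icc u w) := by
  obtain ⟨h, _, _⟩ := h3 Hm Hp C cd V.a V.b V.N V.lt V.lab
  have hc : V.c ∈ Ioo V.a V.b := by
    unfold Gap.c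
    constructor <;> linarith [V.lt]
  obtain ⟨hF, _, _⟩ := h V.c hc
  have hF' : IntegrableOn (fun t => vf cd t / (|qr V.a V.b t| * |t - V.c|)) (Icc u w) := hF.integrableOn
  have hG := hF'.mul_continuousOn (g' := fun t => |t - V.c|) (by fun_prop) isCompact_Icc
  refine hG.congr_fun ?_ measurableSet_Icc
  intro t _
  show vf cd t / (|qr V.a V.b t| * |t - V.c|) * |t - V.c| = vf cd t / |qr V.a V.b t|
  by_cases ht : t = V.c
  · subst ht
    rw [qr_abs, Real.sqrt_eq_zero_of_nonpos]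
    · simp
    · have := hc.1
      have := hc.2
      nlinarith
  · have h4 : |t - V.c| ≠ 0 := by
      rw [abs_ne_zero, sub_ne_zero]
      exact ht
    rw [div_mul_eq_mul_div, mul_div_mul_right _ _ h4]

lemma q_lb (a b t R ε : ℝ) (hR : 0 < R) (hε : 0 < ε) (hε1 : ε ≤ 1 / 10) (hs : R * (4 * ε) = b - a)
    (hfar : R < |t - (a + b) / 2|) : 9 / 10 * R ≤ |qr a b t| := by
  rw [qr_abs]
  apply Real.le_sqrt_of_sq_le
  have hsq : R ^ 2 ≤ (t - (a + b) / 2) ^ 2 := by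
    rw [← sq_abs (t - (a + b) / 2)]
    exact pow_le_pow_left₀ hR.le hfar.le 2
  have hid : (t - a) * (t - b) = (t - (a + b) / 2) ^ 2 - (b - a) ^ 2 / 4 := by ring
  have h1 : ε ^ 2 ≤ 1 / 100 := by nlinarith
  have h2 : R ^ 2 * ε ^ 2 ≤ R ^ 2 * (1 / 100) := mul_le_mul_of_nonneg_left h1 (sq_nonneg R)
  have h3 : (R * (4 * ε)) ^ 2 / 4 = 4 * (R ^ 2 * ε ^ 2) := by ring
  rw [hid, ← hs, h3]
  nlinarith [sq_nonneg R]

theorem st_R4 (h1 : ST_P1) (h3 : ST_P3) (h6 : ST_Q6) (h8 : ST_Q8) : ST_R4 := by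
  obtain ⟨K, ε6, hK, hε6, H6⟩ := h6
  obtain ⟨ε8, hε8, H8⟩ := h8
  refine ⟨8 * K ^ 2 + 9, min (min ε6 ε8) (1 / 10), by nlinarith, by positivity, ?_⟩
  intro ε Hm Hp C cd hpar hε x ρ V hρ hreg hcx hs1 hs2
  have hε0 : 0 < ε := hpar.1
  have hle6 : ε ≤ ε6 := le_trans hε (le_trans (min_le_left _ _) (min_le_left _ _))
  have hle8 : ε ≤ ε8 := le_trans hε (le_trans (min_le_left _ _) (min_le_right _ _))
  have hle1 : ε ≤ 1 / 10 := le_trans hε (min_le_right _ _)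
  have hs : 0 < V.s := by unfold Gap.s; linarith [V.lt]
  obtain ⟨_, _, hmono, hharn, _, _⟩ := h1 Hm Hp C cd
  have hmeet : V.Meets x ρ := by
    have hc1 : V.a ≤ V.c := by unfold Gap.c; linarith [V.lt]
    have hc2 : V.c ≤ V.b := by unfold Gap.c; linarith [V.lt]
    rw [abs_le] at hcx
    constructor <;> linarith
  obtain ⟨q6a, q6b⟩ := H6 ε Hm Hp C cd hpar hle6 V (hreg.big V hmeet)
  have hpow1 : (1 : ℝ) ≤ ε ^ (-(21 / 20) : ℝ) := by
    apply Real.one_le_rpow_of_pos_of_le_one_of_nonpos hε0 (by linarith)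
    norm_num
  obtain ⟨q8a, _, _, _⟩ := H8 ε Hm Hp C cd hpar hle8 x ρ ρ ρ hρ le_rfl le_rfl (by nlinarith) hreg
  set J := Yf cd x ρ with hJdef
  have hJ : 0 < J := (hmono x ρ ρ hρ le_rfl).1
  set R := V.s / (4 * ε) with hRdef
  have hR : 0 < R := by positivity
  have hRs : R * (4 * ε) = V.s := by rw [hRdef]; field_simp
  -- powers of ε
  have hp65 : 0 < ε ^ (6 / 5 : ℝ) := Real.rpow_pos_of_pos hε0 _
  have hp2 : ε ^ 2 ≤ ε ^ (6 / 5 : ℝ) := by
    have : ε ^ (2 : ℝ) ≤ ε ^ (6 / 5 : ℝ) :=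
      Real.rpow_le_rpow_of_exponent_ge hε0 (by linarith) (by norm_num)
    rwa [Real.rpow_two] at this
  have hp159 : ε * ε ^ (59 / 100 : ℝ) ≤ ε ^ (6 / 5 : ℝ) := by
    have e1 : ε * ε ^ (59 / 100 : ℝ) = ε ^ (1 + 59 / 100 : ℝ) := by
      rw [Real.rpow_add hε0, Real.rpow_one]
    rw [e1]
    exact Real.rpow_le_rpow_of_exponent_ge hε0 (by linarith) (by norm_num)
  -- Y at the centre of V
  have hYc : ∀ r : ℝ, 0 < r → r ≤ ρ → Yf cd V.c r ≤ 2 * J := by
    intro r hr hrρ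
    have a1 := (hmono V.c r ρ hr hrρ).2.1
    have a2 := hharn x V.c ρ hρ (by rw [abs_sub_comm]; linarith)
    have hk : |x - V.c| / ρ ≤ 3 / 5 := by
      rw [div_le_iff₀ hρ, abs_sub_comm]
      exact hcx
    have hk0 : 0 ≤ |x - V.c| / ρ := by positivity
    have a3 : (1 + |x - V.c| / ρ + (|x - V.c| / ρ) ^ 2) ≤ 2 := by nlinarith
    have a4 : (1 + |x - V.c| / ρ + (|x - V.c| / ρ) ^ 2) * J ≤ 2 * J :=
      mul_le_mul_of_nonneg_right a3 hJ.le
    linarith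
  -- near part
  have hkk : K * ε * V.s * V.kk ≤ 8 * K ^ 2 * ε ^ (6 / 5 : ℝ) * J := by
    rcases le_total R ρ with h | h
    · have b1 := q6b R hR le_rfl
      have b2 := hYc R hR h
      have b3 : V.kk * R ≤ K * (2 * J) := by nlinarith
      have b4 : K * ε * V.s * V.kk = 4 * K * ε ^ 2 * (V.kk * R) := by rw [← hRs]; ring
      rw [b4]
      have b5 : 4 * K * ε ^ 2 * (V.kk * R) ≤ 4 * K * ε ^ 2 * (K * (2 * J)) :=
        mul_le_mul_of_nonneg_left b3 (by positivity)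
      have b6 : 4 * K * ε ^ 2 * (K * (2 * J)) = 8 * K ^ 2 * J * ε ^ 2 := by ring
      have b7 : 8 * K ^ 2 * J * ε ^ 2 ≤ 8 * K ^ 2 * J * ε ^ (6 / 5 : ℝ) :=
        mul_le_mul_of_nonneg_left hp2 (by positivity)
      linarith
    · have b1 := q6b ρ hρ h
      have b2 := hYc ρ hρ le_rfl
      have b3 : V.kk * ρ ≤ K * (2 * J) := by nlinarith
      have hkk0 : 0 ≤ V.kk := by
        by_contra hneg
        rw [not_le] at hneg
        obtain ⟨_, c1, _⟩ := (h3 Hm Hp C cd V.a V.b V.N V.lt V.lab).1 V.c (by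
          unfold Gap.c
          constructor <;> linarith [V.lt])
        exact absurd c1 (not_lt.mpr hneg.le)
      have b4 : V.s * V.kk ≤ ε ^ (59 / 100 : ℝ) * ρ * V.kk := mul_le_mul_of_nonneg_right hs2 hkk0
      have hp59 : 0 < ε ^ (59 / 100 : ℝ) := Real.rpow_pos_of_pos hε0 _
      have b5 : ε ^ (59 / 100 : ℝ) * (V.kk * ρ) ≤ ε ^ (59 / 100 : ℝ) * (K * (2 * J)) :=
        mul_le_mul_of_nonneg_left b3 hp59.le
      have b6 : V.s * V.kk ≤ ε ^ (59 / 100 : ℝ) * (K * (2 * J)) := by linarith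
      have b7 : K * ε * V.s * V.kk ≤ K * ε * (ε ^ (59 / 100 : ℝ) * (K * (2 * J))) := by
        have := mul_le_mul_of_nonneg_left b6 (by positivity : 0 ≤ K * ε)
        linarith
      have b8 : K * ε * (ε ^ (59 / 100 : ℝ) * (K * (2 * J))) = 2 * K ^ 2 * J * (ε * ε ^ (59 / 100 : ℝ)) := by
        ring
      have b9 : 2 * K ^ 2 * J * (ε * ε ^ (59 / 100 : ℝ)) ≤ 2 * K ^ 2 * J * ε ^ (6 / 5 : ℝ) :=
        mul_le_mul_of_nonneg_left hp159 (by positivity)
      have b10 : 0 ≤ K ^ 2 * J * ε ^ (6 / 5 : ℝ) := by positivity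
      linarith
  have hf0 : ∀ t, 0 ≤ vf cd t / |V.q t| := fun t => div_nonneg (cd.im_nonneg t) (abs_nonneg _)
  have hsplit := integral_inter_add_sdiff (f := fun t => vf cd t / |V.q t|) (μ := volume)
    (s := Icc (x - ρ) (x + ρ)) (t := Icc (V.c - R) (V.c + R)) measurableSet_Icc (int_on h3 cd V _ _)
  have hnear : ∫ t in Icc (x - ρ) (x + ρ) ∩ Icc (V.c - R) (V.c + R), vf cd t / |V.q t| ≤
      K * ε * V.s * V.kk := by
    refine le_trans (setIntegral_mono_set (int_on h3 cd V _ _) (Filter.Eventually.of_forall hf0)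
      (Filter.Eventually.of_forall (fun t ht => ht.2))) q6a
  have haway : ∫ t in Icc (x - ρ) (x + ρ) \ Icc (V.c - R) (V.c + R), vf cd t / |V.q t| ≤
      10 / (9 * R) * ∫ t in Icc (x - ρ) (x + ρ), vf cd t := by
    have hv0 : ∀ t, 0 ≤ vf cd t := cd.im_nonneg
    have hvint : IntegrableOn (vf cd) (Icc (x - ρ) (x + ρ)) := (vf_cont cd).integrableOn_Icc
    have hms : MeasurableSet (Icc (x - ρ) (x + ρ) \ Icc (V.c - R) (V.c + R)) :=
      measurableSet_Icc.diff measurableSet_Icc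
    have e1 : ∫ t in Icc (x - ρ) (x + ρ) \ Icc (V.c - R) (V.c + R), vf cd t / |V.q t| ≤
        ∫ t in Icc (x - ρ) (x + ρ) \ Icc (V.c - R) (V.c + R), 10 / (9 * R) * vf cd t := by
      apply setIntegral_mono_on ((int_on h3 cd V _ _).mono_set sdiff_subset)
        ((hvint.mono_set sdiff_subset).const_mul _) hms
      intro t ht
      have hq : 9 / 10 * R ≤ |V.q t| := by
        apply q_lb V.a V.b t R ε hR hε0 hle1 hRs
        by_contra hcon
        rw [not_lt, abs_le] at hcon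
        have e4 : V.c = (V.a + V.b) / 2 := rfl
        exact ht.2 ⟨by linarith [hcon.1], by linarith [hcon.2]⟩
      have hq0 : 0 < |V.q t| := lt_of_lt_of_le (by positivity) hq
      show vf cd t / |V.q t| ≤ 10 / (9 * R) * vf cd t
      rw [div_le_iff₀ hq0]
      have e2 : (1 : ℝ) ≤ 10 / (9 * R) * |V.q t| := by
        have e3 : (1 : ℝ) = 10 / (9 * R) * (9 / 10 * R) := by field_simp
        calc (1 : ℝ) = 10 / (9 * R) * (9 / 10 * R) := e3
          _ ≤ 10 / (9 * R) * |V.q t| := mul_le_mul_of_nonneg_left hq (by positivity)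
      nlinarith [hv0 t]
    refine le_trans e1 ?_
    rw [integral_const_mul]
    apply mul_le_mul_of_nonneg_left _ (by positivity)
    exact setIntegral_mono_set hvint (Filter.Eventually.of_forall hv0)
      (Filter.Eventually.of_forall (fun t ht => ht.1))
  have hρρ : ρ / ρ = 1 := div_self hρ.ne'
  rw [hρρ, mul_one] at q8a
  have hfin : 10 / (9 * R) * ∫ t in Icc (x - ρ) (x + ρ), vf cd t ≤ 9 * ε ^ (6 / 5 : ℝ) * (ε * ρ / V.s) * J := by
    have g1 : 10 / (9 * R) * ∫ t in Icc (x - ρ) (x + ρ), vf cd t ≤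
        10 / (9 * R) * (2 * ε ^ (6 / 5 : ℝ) * ρ * J) := mul_le_mul_of_nonneg_left q8a (by positivity)
    have g2 : 10 / (9 * R) * (2 * ε ^ (6 / 5 : ℝ) * ρ * J) = 80 / 9 * ε ^ (6 / 5 : ℝ) * (ε * ρ / V.s) * J := by
      rw [hRdef]
      field_simp
      ring
    have g3 : 0 ≤ ε ^ (6 / 5 : ℝ) * (ε * ρ / V.s) * J := by positivity
    linarith
  have hnn : nn x ρ V = ∫ t in Icc (x - ρ) (x + ρ), vf cd t / |V.q t| := rfl
  rw [hnn, ← hsplit]
  have g4 : 0 ≤ ε ^ (6 / 5 : ℝ) * (ε * ρ / V.s) * J := by positivity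
  have g5 : 0 ≤ ε ^ (6 / 5 : ℝ) * J := by positivity
  have g6 : (8 * K ^ 2 + 9) * ε ^ (6 / 5 : ℝ) * (1 + ε * ρ / V.s) * J =
      8 * K ^ 2 * ε ^ (6 / 5 : ℝ) * J + 9 * ε ^ (6 / 5 : ℝ) * (ε * ρ / V.s) * J +
      9 * (ε ^ (6 / 5 : ℝ) * J) + 8 * K ^ 2 * (ε ^ (6 / 5 : ℝ) * (ε * ρ / V.s) * J) := by ring
  rw [g6]
  have g7 : 0 ≤ 8 * K ^ 2 * (ε ^ (6 / 5 : ℝ) * (ε * ρ / V.s) * J) := by positivity
  linarith

end Pool.Agent.Helper31.CV.R4
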