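import Pool.Agent.Helper36.CV.StmtsR

set_option autoImplicit false

namespace Pool.Agent.Helper31.CV.R6

open Pool.Agent.Helper36.CV Set

lemma dist_left {Hm Hp : ℝ} {C : Set ℝ} {cd : CD Hm Hp C} (V : Gap cd) (x : ℝ) (h : V.b < x) :
    V.dist x = x - V.b := by
  unfold Gap.dist
  have h1 := V.lt
  rw [max_eq_right (by linarith : V.a - x ≤ x - V.b), max_eq_right (by linarith)]

lemma dist_meets {Hm Hp : ℝ} {C : Set ℝ} {cd : CD Hm Hp C} (V : Gap cd) (x d : ℝ) (hd : 0 ≤ d)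
    (h : V.Meets x d) : V.dist x ≤ d := by
  obtain ⟨h1, h2⟩ := h
  unfold Gap.dist
  exact max_le hd (max_le (by linarith) (by linarith))

lemma pow04 (ε : ℝ) (hε : 0 < ε) (h : ε ≤ 1 / 10 ^ 5) : ε ^ (2 / 5 : ℝ) ≤ 1 / 100 := by
  have h1 : ε ^ (2 / 5 : ℝ) ≤ (1 / 10 ^ 5 : ℝ) ^ (2 / 5 : ℝ) := Real.rpow_le_rpow hε.le h (by norm_num)
  have h2 : (1 / 10 ^ 5 : ℝ) ^ (2 / 5 : ℝ) = 1 / 100 := by
    have h3 : (1 / 10 ^ 5 : ℝ) = (1 / 10 : ℝ) ^ (5 : ℝ) := by norm_num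
    rw [h3, ← Real.rpow_mul (by norm_num)]
    have h4 : (5 : ℝ) * (2 / 5) = (2 : ℕ) := by norm_num
    rw [h4, Real.rpow_natCast]
    norm_num
  linarith

theorem st_R6 (h1 : ST_P1) (hQ4 : ST_Q4) (h3 : ST_R3) : ST_R6 := by
  intro cK hcK
  obtain ⟨ε3, hε3, H3⟩ := h3 cK hcK
  refine ⟨min ε3 (1 / 10 ^ 5), by positivity, ?_⟩
  intro ε Hm Hp C cd hpar hε τ l r l0 r0 l1 r1 l2 r2 VL VR hpair D V0 hNL hDub
  have e3 : ε ≤ ε3 := le_trans hε (min_le_left _ _)
  have e5 : ε ≤ 1 / 10 ^ 5 := le_trans hε (min_le_right _ _)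
  have hε0 : 0 < ε := hpar.1
  have hε1 : ε ≤ 1 / 10 := le_trans e5 (by norm_num)
  obtain ⟨a1, _⟩ := H3 ε Hm Hp C cd hpar e3 τ l r l0 r0 l1 r1 l2 r2 VL VR hpair
  have hlr : l < r := hpair.kids.lt
  have hgood := hpair.good
  set x := (l + r) / 2 with hx
  set ρ := r - l with hρdef
  have hρ : 0 < ρ := by rw [hρdef]; linarith
  have hdist : V0.dist x = D := by rw [dist_left V0 x hNL.left, hNL.dD]
  have hD : 7 / 5 * ρ < D := by
    have := a1 V0 hNL.viol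
    rwa [hdist] at this
  have hD0 : 0 < D := by linarith
  -- size of the good region
  have hcube : D ≤ ρ / ε ^ 3 := by
    have b1 : ε ^ (-(21 / 20) : ℝ) ≤ ε ^ (-3 : ℝ) :=
      Real.rpow_le_rpow_of_exponent_ge hε0 (by linarith) (by norm_num)
    have b2 : ε ^ (-3 : ℝ) = (ε ^ 3)⁻¹ := by
      rw [Real.rpow_neg hε0.le]
      norm_cast
    rw [b2] at b1
    have b3 : ε ^ (-(21 / 20) : ℝ) * ρ ≤ (ε ^ 3)⁻¹ * ρ := mul_le_mul_of_nonneg_right b1 hρ.le
    rw [inv_mul_eq_div] at b3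
    linarith
  have hbig : ∀ W : Gap cd, W.Meets x (ρ / ε ^ 3) → 1000 ≤ |W.mu| := by
    intro W hW
    have b1 := hgood.big W hW
    have b2 : (1000 : ℝ) ≤ 1 / ε ^ 4 := by
      rw [le_div_iff₀ (by positivity)]
      have b3 : ε ^ 4 ≤ (1 / 10) ^ 4 := pow_le_pow_left₀ hε0.le hε1 4
      linarith
    linarith
  have hmeet0 : V0.Meets x (ρ / ε ^ 3) := by
    have b1 := hNL.left
    have b2 := hNL.dD
    have b3 := V0.lt
    have b4 : 0 < ρ / ε ^ 3 := by positivity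
    constructor <;> linarith
  have hmu : 1000 ≤ |V0.mu| := hbig V0 hmeet0
  have hreg : Reg cd ε x ρ (D / 2) (fun _ => False) := by
    refine ⟨?_, ?_, ?_⟩
    · intro t ht
      apply hgood.inn
      rw [abs_le]
      constructor <;> linarith [ht.1, ht.2]
    · intro W hW
      apply hbig
      obtain ⟨b1, b2⟩ := hW
      constructor <;> linarith
    · intro W hW _
      by_contra hcon
      have b1 := hNL.near W hcon
      have b2 := dist_meets W x (D / 2) (by linarith) hW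
      linarith
  obtain ⟨_, _, hmono, _, _, hosc⟩ := h1 Hm Hp C cd
  obtain ⟨_, _, q3, _⟩ := hQ4 ε Hm Hp C cd hpar e5
  have hviol : |V0.mu| * Real.sqrt (D / ρ) * Yf cd x D < ε ^ (2 / 5 : ℝ) := by
    have b1 := hNL.viol
    unfold NV at b1
    rw [hdist, max_eq_right (by linarith : ρ ≤ D), not_le] at b1
    exact b1
  have hYD : 0 < Yf cd x D := (hmono x D D hD0 le_rfl).1
  have hsq1 : 1 ≤ Real.sqrt (D / ρ) := by
    apply Real.le_sqrt_of_sq_le
    rw [one_pow, le_div_iff₀ hρ]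
    linarith
  have hp04 := pow04 ε hε0 e5
  have hp0 : 0 < ε ^ (2 / 5 : ℝ) := Real.rpow_pos_of_pos hε0 _
  refine ⟨hD, hmu, hreg, ?_, q3 V0 hmu, ?_⟩
  · intro hs2 t ht
    set S := Real.sqrt (D / ρ) with hS
    set R := 3 / 100 * ε ^ (-(2 / 5) : ℝ) * S * D with hR
    have hpm : 0 < ε ^ (-(2 / 5) : ℝ) := Real.rpow_pos_of_pos hε0 _
    have hR0 : 0 < R := by positivity
    have hd : D ≤ R + 2 * D := by linarith
    have hd0 : 0 < R + 2 * D := by linarith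
    have hb := hNL.dD
    have hs0 : V0.s = V0.b - V0.a := rfl
    have hc0 : V0.c = (V0.a + V0.b) / 2 := rfl
    have htx : |t - x| ≤ R + 2 * D := by
      rw [abs_le] at ht ⊢
      constructor <;> linarith [ht.1, ht.2, V0.lt]
    have hbx : |V0.b - x| ≤ R + 2 * D := by
      rw [abs_le]
      constructor <;> linarith
    have b1 := hosc x (R + 2 * D) t V0.b hd0 htx hbx
    have b2 : Nf cd V0.b = V0.N := V0.lab V0.b ⟨V0.lt.le, le_rfl⟩
    rw [b2] at b1
    have b3 := (hmono x D (R + 2 * D) hD0 hd).2.2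
    have b4 : Yf cd x (R + 2 * D) ≤ (R + 2 * D) / D * Yf cd x D := by
      rw [div_le_iff₀ hd0] at b3
      have : Yf cd x D / D * (R + 2 * D) = (R + 2 * D) / D * Yf cd x D := by ring
      linarith
    have b5 : (R + 2 * D) / D = 3 / 100 * ε ^ (-(2 / 5) : ℝ) * S + 2 := by
      rw [hR]
      field_simp
    rw [b5] at b4
    have b6 : |V0.mu| + 1 ≤ 1001 / 1000 * |V0.mu| := by linarith
    have hmu0 : 0 ≤ |V0.mu| := abs_nonneg _
    have b7 : |Nf cd t - V0.N| * (|V0.mu| + 1) ≤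
        12 * ((3 / 100 * ε ^ (-(2 / 5) : ℝ) * S + 2) * Yf cd x D) * (1001 / 1000 * |V0.mu|) := by
      apply mul_le_mul _ b6 (by linarith) (by positivity)
      linarith
    have b8 : ε ^ (-(2 / 5) : ℝ) * ε ^ (2 / 5 : ℝ) = 1 := by
      rw [← Real.rpow_add hε0]
      norm_num
    have b9 : ε ^ (-(2 / 5) : ℝ) * (|V0.mu| * S * Yf cd x D) ≤ 1 := by
      rw [← b8]
      exact mul_le_mul_of_nonneg_left hviol.le hpm.le
    have b10 : |V0.mu| * Yf cd x D ≤ |V0.mu| * S * Yf cd x D := by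
      have := mul_le_mul_of_nonneg_left hsq1 (mul_nonneg hmu0 hYD.le)
      linarith
    have b11 : 12 * ((3 / 100 * ε ^ (-(2 / 5) : ℝ) * S + 2) * Yf cd x D) * (1001 / 1000 * |V0.mu|) =
        12 * (1001 / 1000) * (3 / 100 * (ε ^ (-(2 / 5) : ℝ) * (|V0.mu| * S * Yf cd x D)) +
          2 * (|V0.mu| * Yf cd x D)) := by ring
    linarith
  · have b1 := (hmono x D (2 * D) hD0 (by linarith)).2.2
    have b2 : Yf cd x (2 * D) ≤ 2 * Yf cd x D := by
      rw [div_le_iff₀ (by positivity)] at b1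
      have : Yf cd x D / D * (2 * D) = 2 * Yf cd x D := by field_simp
      linarith
    have hmu0 : 0 ≤ |V0.mu| := abs_nonneg _
    have b3 : |V0.mu| * Yf cd x (2 * D) ≤ |V0.mu| * (2 * Yf cd x D) := mul_le_mul_of_nonneg_left b2 hmu0
    have b10 : |V0.mu| * Yf cd x D ≤ |V0.mu| * Real.sqrt (D / ρ) * Yf cd x D := by
      have := mul_le_mul_of_nonneg_left hsq1 (mul_nonneg hmu0 hYD.le)
      linarith
    linarith

end Pool.Agent.Helper31.CV.R6
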